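import Mathlib
import Pool.Agent.Q153.TwoIndTau

/-!
# The maximum size of `t`-independent sets is not monotone over the even cyclic groups
-/

set_option autoImplicit false

namespace Pool.Agent.Results.MP_8fcc33_co.NotMonotone

/-- `A` is `t`-independent: `∑ λ_a a ≠ 0` for all integers `λ_a` (`a ∈ A`) with
`1 ≤ ∑ |λ_a| ≤ t`. -/
def Independent {n : ℕ} (t : ℕ) (A : Finset (ZMod n)) : Prop :=
  ∀ c : ZMod n → ℤ, 1 ≤ ∑ a ∈ A, |c a| → ∑ a ∈ A, |c a| ≤ t → ∑ a ∈ A, c a • a ≠ 0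

/-- `τ_±(Z_n,[1,t])`: the largest size of a `t`-independent subset of `Z_n` (`0` if only the empty
set is `t`-independent). -/
noncomputable def tau (n t : ℕ) : ℕ :=
  sSup {k | ∃ A : Finset (ZMod n), Independent t A ∧ A.card = k}

/-- **Theorem.** (1) For `t = 5`: `τ_±(Z_6,[1,5]) = 1`, `τ_±(Z_18,[1,5]) ≥ 2` and
`τ_±(Z_20,[1,5]) = 1`; so the sequence over the even `n` is not monotone. (2) More generally, for
every `t ≡ 1 mod 4`, `t ≥ 5`, the sequence `k ↦ τ_±(Z_{2(k+1)},[1,t])` of the values at the even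
positive integers is neither nondecreasing nor nonincreasing. -/
theorem result :
    (tau 6 5 = 1 ∧ 2 ≤ tau 18 5 ∧ tau 20 5 = 1) ∧
    ∀ t : ℕ, t % 4 = 1 → 5 ≤ t →
      ¬ Monotone (fun k : ℕ => tau (2 * (k + 1)) t) ∧
      ¬ Antitone (fun k : ℕ => tau (2 * (k + 1)) t) := by
  have e : ∀ n t, tau n t = Pool.Agent.Q153.TwoInd.tau n t := fun n t => rfl
  refine ⟨⟨?_, ?_, ?_⟩, ?_⟩
  · rw [e, show 5 = 2 * 3 - 1 by norm_num, Pool.Agent.Q153.TwoInd.tau_eq_one (by norm_num)]
    norm_num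
  · rw [e, show 5 = 2 * 3 - 1 by norm_num, Pool.Agent.Q153.TwoInd.two_le_tau (by norm_num)]
    norm_num
  · rw [e, show 5 = 2 * 3 - 1 by norm_num, Pool.Agent.Q153.TwoInd.tau_eq_one (by norm_num)]
    norm_num
  · intro t ht ht5
    obtain ⟨q, rfl⟩ : ∃ q, t = 4 * q + 1 := ⟨t / 4, by omega⟩
    have hq : 1 ≤ q := by omega
    -- `r = 2 q + 1`
    have hrt : 4 * q + 1 = 2 * (2 * q + 1) - 1 := by omega
    set R := (2 * q + 1) ^ 2 with hR
    have hRv : R = 4 * (q ^ 2 + q) + 1 := by rw [hR]; ring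
    have hR2 : 2 * q + 1 < R := by rw [hRv]; nlinarith
    have a1 : tau (2 * (q + q + 1)) (4 * q + 1) = 1 := by
      rw [e, hrt, Pool.Agent.Q153.TwoInd.tau_eq_one (by omega), ← hR]
      omega
    have a2 : 2 ≤ tau (2 * ((R - 1) + 1)) (4 * q + 1) := by
      have : NeZero (2 * ((R - 1) + 1)) := ⟨by omega⟩
      rw [e, hrt, Pool.Agent.Q153.TwoInd.two_le_tau (by omega), ← hR]
      omega
    have a3 : tau (2 * (R + 1)) (4 * q + 1) = 1 := by
      rw [e, hrt, Pool.Agent.Q153.TwoInd.tau_eq_one (by omega), ← hR]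
      omega
    constructor
    · intro hm
      have := hm (show R - 1 ≤ R by omega)
      simp only at this
      omega
    · intro hm
      have := hm (show q + q ≤ R - 1 by omega)
      simp only at this
      omega

end Pool.Agent.Results.MP_8fcc33_co.NotMonotone
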